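import Pool.Agent.Helper24.FF.Stmts

set_option autoImplicit false

namespace Pool.Agent.Helper24.FF

open Pool.Agent.Helper64.CT Pool.Agent.Helper64.DT Pool.Agent.Helper64.FL
open Pool.Agent.Helper64.HG (Ovl Model Circ IC HellyCircle ChordModel)

theorem run_set {V : Type} (S : Set V) (x : V) (N : List V) :
    S ∪ LS (x :: N) = insert x S ∪ LS N := by
  ext y
  simp only [LS, Set.mem_union, Set.mem_ofPred_eq, List.mem_cons, Set.mem_insert_iff]
  tauto

theorem st_RUN (hM1 : ST_M1) (hM2 : ST_M2) (hRUB : ST_RUB) : ST_RUN := by
  intro V G S h k v w N
  induction N generalizing S h k v with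
  | nil =>
    intro hF _ _ _ _ hl
    have hw : v = w := by
      simpa using hl
    have h0 : rungs G h k [] = 0 := (hRUB V G h k).1
    have hs : S ∪ LS ([] : List V) = S := by
      ext y
      simp [LS]
    rw [h0, if_pos (by decide), if_pos (by decide), hs, ← hw]
    exact hF
  | cons x N ih =>
    intro hF hI hS hhk hA hl
    obtain ⟨r0, r1, r2, -, -, r3, -⟩ := hRUB V G h k
    obtain ⟨i1, i2, i3, i4⟩ := hI
    have hvx : G.Adj v x := i2 x (by simp)
    have hvN : ∀ u ∈ N, ¬ G.Adj v u := by
      intro u hu
      exact i3 u (by simpa using hu)
    have hxS : x ∉ S := hS x (by simp)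
    have hxN : ∀ u ∈ N, x ≠ u := i4.1
    have hS' : ∀ u ∈ N, u ∉ insert x S := by
      intro u hu hc
      rcases Set.mem_insert_iff.1 hc with h1 | h1
      · exact hxN u hu h1.symm
      · exact hS u (by simp [hu]) h1
    have hl' : (x :: N).getLast? = some w := by
      rw [← hl]
      simp [List.getLast?_cons_cons]
    have hadj : ∀ u ∈ N, ∀ y ∈ insert x S, y ≠ h → y ≠ k → y ≠ x → ¬ G.Adj u y := by
      intro u hu y hy hyh hyk hyx
      rcases Set.mem_insert_iff.1 hy with h1 | h1
      · exact absurd h1 hyx
      · by_cases hyv : y = v
        · rw [hyv]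
          exact fun hc => hvN u hu hc.symm
        · exact hA u (by simp [hu]) y h1 hyh hyk hyv
    rw [run_set]
    by_cases hb : G.Adj h x ∧ G.Adj k x
    · have hF' : F2 G (insert x S) k h x := by
        refine hM2 V G S h k v x hF hxS fun y hy => ?_
        constructor
        · intro hxy
          by_contra hc
          push Not at hc
          exact hA x (by simp) y hy hc.2.1 hc.2.2 hc.1 hxy
        · rintro (h1 | h1 | h1)
          · rw [h1]; exact hvx.symm
          · rw [h1]; exact hb.1.symm
          · rw [h1]; exact hb.2.symm
      have key := ih (insert x S) k h x hF' i4 hS' (fun u hu => (hhk u (by simp [hu])).symm)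
        (fun u hu y hy h1 h2 h3 => hadj u hu y hy h2 h1 h3) hl'
      rw [r3 N] at key
      rw [r1 x N hb]
      by_cases he : Even (rungs G h k N)
      · rw [if_pos he, if_pos he] at key
        have hne : ¬ Even (rungs G h k N + 1) := by
          rw [Nat.even_add_one]
          exact not_not.2 he
        rw [if_neg hne, if_neg hne]
        exact key
      · rw [if_neg he, if_neg he] at key
        have hne : Even (rungs G h k N + 1) := by
          rw [Nat.even_add_one]
          exact he
        rw [if_pos hne, if_pos hne]
        exact key
    · have hF' : F2 G (insert x S) h k x := by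
        refine hM1 V G S h k v x hF hxS fun y hy => ?_
        have hx := hhk x (by simp)
        constructor
        · intro hxy
          by_contra hc
          by_cases hyh : y = h
          · rw [hyh] at hxy
            exact hb ⟨hxy.symm, hx.1 hxy.symm⟩
          · by_cases hyk : y = k
            · rw [hyk] at hxy
              exact hb ⟨hx.2 hxy.symm, hxy.symm⟩
            · exact hA x (by simp) y hy hyh hyk hc hxy
        · intro h1
          rw [h1]
          exact hvx.symm
      have key := ih (insert x S) h k x hF' i4 hS' (fun u hu => hhk u (by simp [hu])) hadj hl'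
      rw [r2 x N hb]
      exact key

end Pool.Agent.Helper24.FF
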